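import Mathlib

/-!
Reverse-Polish terms in the signature of ℓ-groups: evaluation, compilation of ordinary terms, and
naturality of the evaluation.
-/

set_option autoImplicit false

namespace Pool.Agent.LQuasi

/-- One step of the stack evaluation. -/
def step {G : Type} [Group G] [Lattice G] (v : ℕ → G) (s : List G) (a : ℕ ⊕ Fin 5) : List G :=
  Sum.elim (fun i : ℕ => v i :: s)
    (fun k : Fin 5 => (![(1 : G), (s.headD 1)⁻¹, s.tail.headD 1 * s.headD 1,
      s.tail.headD 1 ⊔ s.headD 1, s.tail.headD 1 ⊓ s.headD 1] k) :: s.tail.tail) a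

/-- The value of a word. -/
def val {G : Type} [Group G] [Lattice G] (v : ℕ → G) (t : List (ℕ ⊕ Fin 5)) : G :=
  (List.foldl (step v) [] t).headD 1

section naturality

variable {G H : Type} [Group G] [Lattice G] [Group H] [Lattice H]

theorem headD_map (f : G → H) (h1 : f 1 = 1) (s : List G) :
    (s.map f).headD 1 = f (s.headD 1) := by
  cases s with
  | nil => simp [h1]
  | cons a s => simp

theorem step_map (f : G → H) (h1 : f 1 = 1) (hinv : ∀ x, f x⁻¹ = (f x)⁻¹)
    (hmul : ∀ x y, f (x * y) = f x * f y) (hsup : ∀ x y, f (x ⊔ y) = f x ⊔ f y)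
    (hinf : ∀ x y, f (x ⊓ y) = f x ⊓ f y) (v : ℕ → G) (s : List G) (a : ℕ ⊕ Fin 5) :
    step (fun i => f (v i)) (s.map f) a = (step v s a).map f := by
  rcases a with i | k
  · simp [step]
  · have h2 : (s.map f).tail = s.tail.map f := by simp
    have h3 : (s.map f).tail.tail = s.tail.tail.map f := by simp
    simp only [step, Sum.elim_inr, List.map_cons]
    rw [h3, h2, headD_map f h1, headD_map f h1]
    congr 1
    fin_cases k
    · simp [h1]
    · simp [hinv]
    · simp [hmul]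
    · simp [hsup]
    · simp [hinf]

theorem foldl_map (f : G → H) (h1 : f 1 = 1) (hinv : ∀ x, f x⁻¹ = (f x)⁻¹)
    (hmul : ∀ x y, f (x * y) = f x * f y) (hsup : ∀ x y, f (x ⊔ y) = f x ⊔ f y)
    (hinf : ∀ x y, f (x ⊓ y) = f x ⊓ f y) (v : ℕ → G) (t : List (ℕ ⊕ Fin 5)) :
    ∀ s : List G, List.foldl (step (fun i => f (v i))) (s.map f) t
      = (List.foldl (step v) s t).map f := by
  induction t with
  | nil => intro s; rfl
  | cons a t ih =>
    intro s
    rw [List.foldl_cons, List.foldl_cons, step_map f h1 hinv hmul hsup hinf, ih]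

/-- Evaluation commutes with homomorphisms. -/
theorem val_map (f : G → H) (h1 : f 1 = 1) (hinv : ∀ x, f x⁻¹ = (f x)⁻¹)
    (hmul : ∀ x y, f (x * y) = f x * f y) (hsup : ∀ x y, f (x ⊔ y) = f x ⊔ f y)
    (hinf : ∀ x y, f (x ⊓ y) = f x ⊓ f y) (v : ℕ → G) (t : List (ℕ ⊕ Fin 5)) :
    val (fun i => f (v i)) t = f (val v t) := by
  unfold val
  have := foldl_map f h1 hinv hmul hsup hinf v t []
  rw [List.map_nil] at this
  rw [this, headD_map f h1]

end naturality

/-- Ordinary terms. -/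
inductive T : Type
  | var (i : ℕ) : T
  | one : T
  | inv (t : T) : T
  | mul (s t : T) : T
  | sup (s t : T) : T
  | inf (s t : T) : T

/-- Value of an ordinary term. -/
def T.eval {G : Type} [Group G] [Lattice G] (v : ℕ → G) : T → G
  | .var i => v i
  | .one => 1
  | .inv t => (t.eval v)⁻¹
  | .mul s t => s.eval v * t.eval v
  | .sup s t => s.eval v ⊔ t.eval v
  | .inf s t => s.eval v ⊓ t.eval v

/-- Compilation of ordinary terms to words. -/
def T.comp : T → List (ℕ ⊕ Fin 5)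
  | .var i => [Sum.inl i]
  | .one => [Sum.inl 0, Sum.inl 0, Sum.inr 0]
  | .inv t => [Sum.inl 0] ++ (t.comp ++ [Sum.inr 1])
  | .mul s t => s.comp ++ (t.comp ++ [Sum.inr 2])
  | .sup s t => s.comp ++ (t.comp ++ [Sum.inr 3])
  | .inf s t => s.comp ++ (t.comp ++ [Sum.inr 4])

theorem foldl_comp {G : Type} [Group G] [Lattice G] (v : ℕ → G) (t : T) :
    ∀ s : List G, List.foldl (step v) s t.comp = t.eval v :: s := by
  induction t with
  | var i => intro s; rfl
  | one => intro s; rfl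
  | inv t ih =>
    intro s
    rw [T.comp, List.foldl_append, List.foldl_append, ih]
    rfl
  | mul t u iht ihu =>
    intro s
    rw [T.comp, List.foldl_append, List.foldl_append, iht, ihu]
    rfl
  | sup t u iht ihu =>
    intro s
    rw [T.comp, List.foldl_append, List.foldl_append, iht, ihu]
    rfl
  | inf t u iht ihu =>
    intro s
    rw [T.comp, List.foldl_append, List.foldl_append, iht, ihu]
    rfl

theorem val_comp {G : Type} [Group G] [Lattice G] (v : ℕ → G) (t : T) :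
    val v t.comp = t.eval v := by
  unfold val
  rw [foldl_comp]
  rfl

/-- Powers of a term. -/
def T.pow (t : T) : ℕ → T
  | 0 => .one
  | n + 1 => .mul (T.pow t n) t

theorem T.eval_pow {G : Type} [Group G] [Lattice G] (v : ℕ → G) (t : T) (n : ℕ) :
    (t.pow n).eval v = (t.eval v) ^ n := by
  induction n with
  | zero => simp [T.pow, T.eval]
  | succ n ih => simp [T.pow, T.eval, ih, pow_succ]

/-- Conjugate of `t` by `s`. -/
def T.conj (t s : T) : T := .mul (.mul (.inv s) t) s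

/-- The element `(a ⊓ A (aa)⁻¹ ⊓ (aaa) A⁻¹ ⊓ Q (a(PP))⁻¹) ⊔ 1`, with `A = b⁻¹ a b`,
`P = c⁻¹ a c`, `Q = b⁻¹ P b`. -/
def RR {G : Type} [Group G] [Lattice G] (a b c : G) : G :=
  (((a ⊓ ((b⁻¹ * a * b) * (a * a)⁻¹)) ⊓ ((a * a * a) * (b⁻¹ * a * b)⁻¹)) ⊓
    ((b⁻¹ * (c⁻¹ * a * c) * b) * (a * ((c⁻¹ * a * c) * (c⁻¹ * a * c)))⁻¹)) ⊔ 1

/-- The term behind `RR`. -/
def T.R (a b c : T) : T :=
  .sup (.inf (.inf (.inf a (.mul (.mul (.mul (.inv b) a) b) (.inv (.mul a a))))
    (.mul (.mul (.mul a a) a) (.inv (.mul (.mul (.inv b) a) b))))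
    (.mul (.mul (.mul (.inv b) (.mul (.mul (.inv c) a) c)) b)
      (.inv (.mul a (.mul (.mul (.mul (.inv c) a) c) (.mul (.mul (.inv c) a) c)))))) .one

theorem T.eval_R {G : Type} [Group G] [Lattice G] (v : ℕ → G) (a b c : T) :
    (T.R a b c).eval v = RR (a.eval v) (b.eval v) (c.eval v) := rfl

/-- In a totally ordered group `RR a b c = 1` unless the four inequalities hold. -/
theorem RR_eq_one_iff {G : Type} [Group G] [LinearOrder G] [MulLeftMono G] [MulRightMono G]
    (a b c : G) :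
    RR a b c = 1 ↔ ¬ (1 < a ∧ a * a < b⁻¹ * a * b ∧ b⁻¹ * a * b < a * a * a ∧
      a * ((c⁻¹ * a * c) * (c⁻¹ * a * c)) < b⁻¹ * (c⁻¹ * a * c) * b) := by
  unfold RR
  rw [sup_eq_right, ← not_lt, lt_inf_iff, lt_inf_iff, lt_inf_iff]
  have key : ∀ x y : G, 1 < y * x⁻¹ ↔ x < y := by
    intro x y
    rw [lt_mul_inv_iff_mul_lt, one_mul]
  rw [key, key, key]
  constructor
  · rintro h ⟨h1, h2, h3, h4⟩
    exact h ⟨⟨⟨h1, h2⟩, h3⟩, h4⟩
  · rintro h ⟨⟨⟨h1, h2⟩, h3⟩, h4⟩
    exact h ⟨h1, h2, h3, h4⟩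

end Pool.Agent.LQuasi
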