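import Mathlib
import Pool.Agent.LQuasi.Term

/-!
Two families of totally ordered groups: the semidirect products `SD χ`, and their covers `GG χ φ`.
-/

set_option autoImplicit false

namespace Pool.Agent.LQuasi

/-- A positive character of an additive group in a field. -/
structure Chr (N R : Type) [AddCommGroup N] [Field R] [LinearOrder R] where
  /-- the function -/
  fn : N → R
  /-- value at zero -/
  map_zero : fn 0 = 1
  /-- multiplicativity -/
  map_add : ∀ a b, fn (a + b) = fn a * fn b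
  /-- positivity -/
  pos : ∀ a, 0 < fn a

variable {N R : Type} [AddCommGroup N] [LinearOrder N] [IsOrderedAddMonoid N]
  [Field R] [LinearOrder R] [IsStrictOrderedRing R]

omit [LinearOrder N] [IsOrderedAddMonoid N] [IsStrictOrderedRing R] in
theorem Chr.mul_neg (χ : Chr N R) (a : N) : χ.fn a * χ.fn (-a) = 1 := by
  rw [← χ.map_add, add_neg_cancel, χ.map_zero]

omit [LinearOrder N] [IsOrderedAddMonoid N] [IsStrictOrderedRing R] in
theorem Chr.neg_mul (χ : Chr N R) (a : N) : χ.fn (-a) * χ.fn a = 1 := by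
  rw [← χ.map_add, neg_add_cancel, χ.map_zero]

/-- The semidirect product of `N` and `R` given by `χ`. -/
@[ext]
structure SD (χ : Chr N R) : Type where
  /-- first coordinate -/
  n : N
  /-- second coordinate -/
  r : R

namespace SD

variable {χ : Chr N R}

instance : Mul (SD χ) := ⟨fun x y => ⟨x.n + y.n, χ.fn y.n * x.r + y.r⟩⟩
instance : One (SD χ) := ⟨⟨0, 0⟩⟩
instance : Inv (SD χ) := ⟨fun x => ⟨-x.n, -(χ.fn (-x.n) * x.r)⟩⟩

omit [LinearOrder N] [IsOrderedAddMonoid N] [IsStrictOrderedRing R]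

@[simp] theorem mul_n (x y : SD χ) : (x * y).n = x.n + y.n := rfl
@[simp] theorem mul_r (x y : SD χ) : (x * y).r = χ.fn y.n * x.r + y.r := rfl
@[simp] theorem one_n : (1 : SD χ).n = 0 := rfl
@[simp] theorem one_r : (1 : SD χ).r = 0 := rfl
@[simp] theorem inv_n (x : SD χ) : (x⁻¹).n = -x.n := rfl
@[simp] theorem inv_r (x : SD χ) : (x⁻¹).r = -(χ.fn (-x.n) * x.r) := rfl

instance : Group (SD χ) where
  mul_assoc x y z := by
    ext
    · simp [add_assoc]
    · simp only [mul_r, mul_n, χ.map_add]; ring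
  one_mul x := by
    ext
    · simp
    · simp
  mul_one x := by
    ext
    · simp
    · simp [χ.map_zero]
  inv_mul_cancel x := by
    ext
    · simp
    · simp only [mul_r, inv_r, one_r]
      have := χ.mul_neg x.n
      linear_combination (-x.r) * this

end SD

namespace SD

variable {χ : Chr N R}

/-- The key used for the order. -/
def key (x : SD χ) : N ×ₗ R := toLex (x.n, x.r)

omit [LinearOrder N] [IsOrderedAddMonoid N] [IsStrictOrderedRing R] in
theorem key_injective : Function.Injective (key (χ := χ)) := by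
  intro x y h
  have h' : (x.n, x.r) = (y.n, y.r) := h
  rw [Prod.mk.injEq] at h'
  exact SD.ext h'.1 h'.2

noncomputable instance : LinearOrder (SD χ) := LinearOrder.lift' key key_injective

omit [IsOrderedAddMonoid N] [IsStrictOrderedRing R] in
theorem le_iff (x y : SD χ) : x ≤ y ↔ x.n < y.n ∨ x.n = y.n ∧ x.r ≤ y.r :=
  Prod.Lex.toLex_le_toLex

omit [IsOrderedAddMonoid N] [IsStrictOrderedRing R] in
theorem lt_iff (x y : SD χ) : x < y ↔ x.n < y.n ∨ x.n = y.n ∧ x.r < y.r :=
  Prod.Lex.toLex_lt_toLex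

instance : MulLeftMono (SD χ) := ⟨by
  intro z x y h
  change z * x ≤ z * y
  rw [le_iff] at h ⊢
  rcases h with h | ⟨h, h'⟩
  · left
    simpa using h
  · right
    refine ⟨by simp [h], ?_⟩
    simp only [mul_r, h]
    linarith⟩

instance : MulRightMono (SD χ) := ⟨by
  intro z x y h
  change x * z ≤ y * z
  rw [le_iff] at h ⊢
  rcases h with h | ⟨h, h'⟩
  · left
    simpa using h
  · right
    refine ⟨by simp [h], ?_⟩
    simp only [mul_r]
    have := mul_le_mul_of_nonneg_left h' (χ.pos z.n).le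
    linarith⟩

end SD

/-- The cover of `SD χ` attached to a homomorphism `φ` from the free abelian group. -/
@[ext]
structure GG (χ : Chr N R) (φ : (ℕ →₀ ℤ) →+ N) : Type where
  /-- the coordinate in the field -/
  r : R
  /-- the coordinate in the free abelian group -/
  f : ℕ →₀ ℤ
  /-- the coordinate in the square -/
  w : ℕ → ℕ → ℤ

namespace GG

variable {χ : Chr N R} {φ : (ℕ →₀ ℤ) →+ N}

noncomputable instance : Mul (GG χ φ) := ⟨fun x y => ⟨χ.fn (φ y.f) * x.r + y.r, x.f + y.f,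
  fun i j => x.w i j + y.w i j + x.f i * y.f j⟩⟩
instance : One (GG χ φ) := ⟨⟨0, 0, fun _ _ => 0⟩⟩
noncomputable instance : Inv (GG χ φ) := ⟨fun x => ⟨-(χ.fn (-φ x.f) * x.r), -x.f,
  fun i j => -x.w i j + x.f i * x.f j⟩⟩

section

omit [LinearOrder N] [IsOrderedAddMonoid N] [IsStrictOrderedRing R]

@[simp] theorem mul_r (x y : GG χ φ) : (x * y).r = χ.fn (φ y.f) * x.r + y.r := rfl
@[simp] theorem mul_f (x y : GG χ φ) : (x * y).f = x.f + y.f := rfl
@[simp] theorem mul_w (x y : GG χ φ) (i j : ℕ) :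
    (x * y).w i j = x.w i j + y.w i j + x.f i * y.f j := rfl
@[simp] theorem one_r : (1 : GG χ φ).r = 0 := rfl
@[simp] theorem one_f : (1 : GG χ φ).f = 0 := rfl
@[simp] theorem one_w (i j : ℕ) : (1 : GG χ φ).w i j = 0 := rfl
@[simp] theorem inv_r (x : GG χ φ) : (x⁻¹).r = -(χ.fn (-φ x.f) * x.r) := rfl
@[simp] theorem inv_f (x : GG χ φ) : (x⁻¹).f = -x.f := rfl
@[simp] theorem inv_w (x : GG χ φ) (i j : ℕ) : (x⁻¹).w i j = -x.w i j + x.f i * x.f j := rfl

noncomputable instance : Group (GG χ φ) where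
  mul_assoc x y z := by
    ext i j
    · simp only [mul_r, mul_f, map_add, χ.map_add]; ring
    · simp [add_assoc]
    · simp only [mul_w, mul_f, Finsupp.add_apply]; ring
  one_mul x := by
    ext i j
    · simp
    · simp
    · simp
  mul_one x := by
    ext i j
    · simp [χ.map_zero]
    · simp
    · simp
  inv_mul_cancel x := by
    ext i j
    · simp only [mul_r, inv_r, one_r]
      have := χ.mul_neg (φ x.f)
      linear_combination (-x.r) * this
    · simp
    · simp only [mul_w, inv_w, inv_f, Finsupp.neg_apply, one_w]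
      ring

end

/-- The key used for the order. -/
noncomputable def key (x : GG χ φ) :
    N ×ₗ (R ×ₗ ((Lex (ℕ → ℤ)) ×ₗ (Lex (ℕ → Lex (ℕ → ℤ))))) :=
  toLex (φ x.f, toLex (x.r, toLex (toLex (fun i => x.f i), toLex (fun i => toLex (x.w i)))))

omit [LinearOrder N] [IsOrderedAddMonoid N] [IsStrictOrderedRing R] in
theorem key_injective : Function.Injective (key (χ := χ) (φ := φ)) := by
  intro x y h
  have h' : (φ x.f, (x.r, ((fun i => x.f i), (fun i => x.w i))))
    = (φ y.f, (y.r, ((fun i => y.f i), (fun i => y.w i)))) := h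
  rw [Prod.mk.injEq, Prod.mk.injEq, Prod.mk.injEq] at h'
  obtain ⟨-, h1, h2, h3⟩ := h'
  exact GG.ext h1 (DFunLike.coe_injective h2) h3

noncomputable instance : LinearOrder (GG χ φ) := LinearOrder.lift' key key_injective

/-- The free abelian coordinate, with its lexicographic order. -/
def F (x : GG χ φ) : Lex (ℕ → ℤ) := toLex (fun i => x.f i)

/-- The square coordinate, with its lexicographic order. -/
def W (x : GG χ φ) : Lex (ℕ → Lex (ℕ → ℤ)) := toLex (fun i => toLex (x.w i))

omit [IsOrderedAddMonoid N] [IsStrictOrderedRing R] in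
theorem le_iff (x y : GG χ φ) : x ≤ y ↔ φ x.f < φ y.f ∨ φ x.f = φ y.f ∧
    (x.r < y.r ∨ x.r = y.r ∧ (F x < F y ∨ F x = F y ∧ W x ≤ W y)) := by
  have h : x ≤ y ↔ key x ≤ key y := Iff.rfl
  rw [h]
  unfold key
  rw [Prod.Lex.toLex_le_toLex]
  simp only
  rw [Prod.Lex.toLex_le_toLex]
  simp only
  rw [Prod.Lex.toLex_le_toLex]
  rfl

omit [IsOrderedAddMonoid N] [IsStrictOrderedRing R] in
theorem lt_iff (x y : GG χ φ) : x < y ↔ φ x.f < φ y.f ∨ φ x.f = φ y.f ∧
    (x.r < y.r ∨ x.r = y.r ∧ (F x < F y ∨ F x = F y ∧ W x < W y)) := by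
  have h : x < y ↔ key x < key y := Iff.rfl
  rw [h]
  unfold key
  rw [Prod.Lex.toLex_lt_toLex]
  simp only
  rw [Prod.Lex.toLex_lt_toLex]
  simp only
  rw [Prod.Lex.toLex_lt_toLex]
  rfl

omit [LinearOrder N] [IsOrderedAddMonoid N] [IsStrictOrderedRing R] in
theorem F_mul (x y : GG χ φ) : F (x * y) = F x + F y := rfl

omit [LinearOrder N] [IsOrderedAddMonoid N] [IsStrictOrderedRing R] in
theorem F_one : F (1 : GG χ φ) = 0 := rfl

omit [LinearOrder N] [IsOrderedAddMonoid N] [IsStrictOrderedRing R] in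
theorem F_inv (x : GG χ φ) : F (x⁻¹) = -F x := rfl

/-- The tensor square term. -/
def tens (x y : Lex (ℕ → ℤ)) : Lex (ℕ → Lex (ℕ → ℤ)) :=
  toLex (fun i => toLex (fun j => (ofLex x) i * (ofLex y) j))

omit [LinearOrder N] [IsOrderedAddMonoid N] [IsStrictOrderedRing R] in
theorem W_mul (x y : GG χ φ) : W (x * y) = W x + W y + tens (F x) (F y) := rfl

omit [LinearOrder N] [IsOrderedAddMonoid N] [IsStrictOrderedRing R] in
theorem W_one : W (1 : GG χ φ) = 0 := rfl

omit [LinearOrder N] [IsOrderedAddMonoid N] [IsStrictOrderedRing R] in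
theorem W_inv (x : GG χ φ) : W (x⁻¹) = -W x + tens (F x) (F x) := rfl

instance : MulLeftMono (GG χ φ) := ⟨by
  intro z x y h
  change z * x ≤ z * y
  rw [le_iff] at h ⊢
  rw [F_mul, F_mul, W_mul, W_mul]
  simp only [mul_f, map_add, mul_r]
  rcases h with h | ⟨h, h' | ⟨h', h'' | ⟨h'', h'''⟩⟩⟩
  · left
    simpa using h
  · right
    refine ⟨by rw [h], Or.inl ?_⟩
    rw [h]
    linarith
  · right
    refine ⟨by rw [h], Or.inr ⟨by rw [h, h'], Or.inl ?_⟩⟩
    exact add_lt_add_right h'' _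
  · right
    refine ⟨by rw [h], Or.inr ⟨by rw [h, h'], Or.inr ⟨by rw [h''], ?_⟩⟩⟩
    rw [h'']
    exact add_le_add_left (add_le_add_right h''' _) _⟩

instance : MulRightMono (GG χ φ) := ⟨by
  intro z x y h
  change x * z ≤ y * z
  rw [le_iff] at h ⊢
  rw [F_mul, F_mul, W_mul, W_mul]
  simp only [mul_f, map_add, mul_r]
  rcases h with h | ⟨h, h' | ⟨h', h'' | ⟨h'', h'''⟩⟩⟩
  · left
    simpa using h
  · right
    refine ⟨by rw [h], Or.inl ?_⟩
    have := mul_lt_mul_of_pos_left h' (χ.pos (φ z.f))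
    linarith
  · right
    refine ⟨by rw [h], Or.inr ⟨by rw [h'], Or.inl ?_⟩⟩
    exact add_lt_add_left h'' _
  · right
    refine ⟨by rw [h], Or.inr ⟨by rw [h'], Or.inr ⟨by rw [h''], ?_⟩⟩⟩
    rw [h'']
    exact add_le_add_left (add_le_add_left h''' _) _⟩

/-- The projection to `SD χ`. -/
noncomputable def proj (x : GG χ φ) : SD χ := ⟨φ x.f, x.r⟩

omit [IsOrderedAddMonoid N] [IsStrictOrderedRing R] in
theorem proj_monotone : Monotone (proj (χ := χ) (φ := φ)) := by
  intro x y h
  rw [le_iff] at h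
  rw [SD.le_iff]
  change φ x.f < φ y.f ∨ φ x.f = φ y.f ∧ x.r ≤ y.r
  rcases h with h | ⟨h, h' | ⟨h', -⟩⟩
  · exact Or.inl h
  · exact Or.inr ⟨h, h'.le⟩
  · exact Or.inr ⟨h, h'.le⟩

omit [LinearOrder N] [IsOrderedAddMonoid N] [IsStrictOrderedRing R] in
theorem proj_one : proj (1 : GG χ φ) = 1 := by
  ext
  · simp [proj]
  · simp [proj]

omit [LinearOrder N] [IsOrderedAddMonoid N] [IsStrictOrderedRing R] in
theorem proj_mul (x y : GG χ φ) : proj (x * y) = proj x * proj y := by
  ext
  · simp [proj]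
  · simp [proj]

omit [LinearOrder N] [IsOrderedAddMonoid N] [IsStrictOrderedRing R] in
theorem proj_inv (x : GG χ φ) : proj (x⁻¹) = (proj x)⁻¹ := by
  ext
  · simp [proj]
  · simp [proj]

omit [IsOrderedAddMonoid N] [IsStrictOrderedRing R] in
theorem proj_sup (x y : GG χ φ) : proj (x ⊔ y) = proj x ⊔ proj y :=
  proj_monotone.map_sup x y

omit [IsOrderedAddMonoid N] [IsStrictOrderedRing R] in
theorem proj_inf (x y : GG χ φ) : proj (x ⊓ y) = proj x ⊓ proj y :=
  proj_monotone.map_inf x y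

end GG

end Pool.Agent.LQuasi
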