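import Mathlib
import Pool.Agent.LQuasi.Groups

/-!
The quasi-identity holds in `GG χ φ` under two conditions on the character `χ`.
-/

set_option autoImplicit false

namespace Pool.Agent.LQuasi

variable {N R : Type} [AddCommGroup N] [LinearOrder N] [IsOrderedAddMonoid N]
  [Field R] [LinearOrder R] [IsStrictOrderedRing R]

namespace GG

variable {χ : Chr N R} {φ : (ℕ →₀ ℤ) →+ N}

omit [LinearOrder N] [IsOrderedAddMonoid N] [IsStrictOrderedRing R] in
theorem conj_f (x y : GG χ φ) : (y⁻¹ * x * y).f = x.f := by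
  simp

omit [LinearOrder N] [IsOrderedAddMonoid N] [IsStrictOrderedRing R] in
theorem conj_r (x y : GG χ φ) (hx : φ x.f = 0) :
    (y⁻¹ * x * y).r = χ.fn (φ y.f) * x.r := by
  simp only [mul_r, inv_r, hx, χ.map_zero]
  have := χ.mul_neg (φ y.f)
  linear_combination (-y.r) * this

omit [LinearOrder N] [IsOrderedAddMonoid N] [IsStrictOrderedRing R] in
theorem conj_w (x y : GG χ φ) (hx : x.f = 0) : (y⁻¹ * x * y).w = x.w := by
  funext i j
  simp only [mul_w, inv_w, inv_f, mul_f, hx, Finsupp.neg_apply, Finsupp.coe_zero, Pi.zero_apply,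
    Finsupp.add_apply]
  ring

/-- The quasi-identity. -/
theorem quasi (ν : N) (hstar : ∀ n, 2 ≤ χ.fn n → χ.fn n ≤ 3 → n = ν)
    (hdstar : ∀ (n : N) (p q : ℤ), p ≠ 0 → p • n = q • ν → χ.fn n * (χ.fn ν - 2) < 1)
    (a b c : GG χ φ) (hbc : b * c = c * b) : RR a b c = 1 := by
  rw [RR_eq_one_iff]
  rintro ⟨h1, h2, h3, h4⟩
  -- the first coordinate of `a` vanishes
  have hna : φ a.f = 0 := by
    have e1 : 0 ≤ φ a.f := by
      rw [lt_iff] at h1
      rcases h1 with h | ⟨h, -⟩
      · simpa using h.le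
      · simpa using h.le
    have e2 : φ (a * a).f ≤ φ (b⁻¹ * a * b).f := by
      rw [lt_iff] at h2
      rcases h2 with h | ⟨h, -⟩
      · exact h.le
      · exact h.le
    rw [conj_f, mul_f, map_add] at e2
    exact le_antisymm (by simpa using e2) e1
  have hAf : (b⁻¹ * a * b).f = a.f := conj_f a b
  have hAr : (b⁻¹ * a * b).r = χ.fn (φ b.f) * a.r := conj_r a b hna
  have haaf : φ (a * a).f = 0 := by rw [mul_f, map_add, hna, add_zero]
  have haaaf : φ (a * a * a).f = 0 := by rw [mul_f, map_add, haaf, hna, add_zero]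
  have haar : (a * a).r = 2 * a.r := by rw [mul_r, hna, χ.map_zero]; ring
  have haaar : (a * a * a).r = 3 * a.r := by rw [mul_r, haar, hna, χ.map_zero]; ring
  have hr0 : 0 ≤ a.r := by
    rw [lt_iff] at h1
    rcases h1 with h | ⟨-, h | ⟨h, -⟩⟩
    · rw [hna] at h
      simp at h
    · exact h.le
    · exact h.le
  rcases hr0.lt_or_eq with hr | hr
  · -- main case
    have k2 : 2 ≤ χ.fn (φ b.f) := by
      rw [lt_iff, haaf, hAf, hna, haar, hAr] at h2
      have : 2 * a.r ≤ χ.fn (φ b.f) * a.r := by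
        rcases h2 with h | ⟨-, h | ⟨h, -⟩⟩
        · exact absurd h (lt_irrefl _)
        · exact h.le
        · exact h.le
      exact le_of_mul_le_mul_right this hr
    have k3 : χ.fn (φ b.f) ≤ 3 := by
      rw [lt_iff, haaaf, hAf, hna, haaar, hAr] at h3
      have : χ.fn (φ b.f) * a.r ≤ 3 * a.r := by
        rcases h3 with h | ⟨-, h | ⟨h, -⟩⟩
        · exact absurd h (lt_irrefl _)
        · exact h.le
        · exact h.le
      exact le_of_mul_le_mul_right this hr
    have hb : φ b.f = ν := hstar _ k2 k3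
    have hPf : (c⁻¹ * a * c).f = a.f := conj_f a c
    have hPr : (c⁻¹ * a * c).r = χ.fn (φ c.f) * a.r := conj_r a c hna
    have hPn : φ (c⁻¹ * a * c).f = 0 := by rw [hPf, hna]
    have hQn : φ (b⁻¹ * (c⁻¹ * a * c) * b).f = 0 := by rw [conj_f, hPn]
    have hQr : (b⁻¹ * (c⁻¹ * a * c) * b).r = χ.fn ν * (χ.fn (φ c.f) * a.r) := by
      rw [conj_r _ b hPn, hPr, hb]
    have hLn : φ (a * ((c⁻¹ * a * c) * (c⁻¹ * a * c))).f = 0 := by
      rw [mul_f, map_add, mul_f, map_add, hPn, hna]
      simp
    have hLr : (a * ((c⁻¹ * a * c) * (c⁻¹ * a * c))).r = a.r + 2 * (χ.fn (φ c.f) * a.r) := by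
      rw [mul_r, mul_f, map_add, hPn, add_zero, χ.map_zero, mul_r, hPn, χ.map_zero, hPr]
      ring
    have k4 : 1 ≤ χ.fn (φ c.f) * (χ.fn ν - 2) := by
      rw [lt_iff, hLn, hQn, hLr, hQr] at h4
      have : a.r + 2 * (χ.fn (φ c.f) * a.r) ≤ χ.fn ν * (χ.fn (φ c.f) * a.r) := by
        rcases h4 with h | ⟨-, h | ⟨h, -⟩⟩
        · exact absurd h (lt_irrefl _)
        · exact h.le
        · exact h.le
      have h' : 1 * a.r ≤ (χ.fn (φ c.f) * (χ.fn ν - 2)) * a.r := by
        linarith
      exact le_of_mul_le_mul_right h' hr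
    -- commutation
    have hcomm : ∀ i j, b.f i * c.f j = c.f i * b.f j := by
      intro i j
      have := congrArg (fun z => GG.w z i j) hbc
      simp only [mul_w] at this
      linarith
    have hbne : b.f ≠ 0 := by
      intro h0
      rw [h0, map_zero, χ.map_zero] at k2
      norm_num at k2
    obtain ⟨i, hi⟩ : ∃ i, b.f i ≠ 0 := by
      by_contra hcon
      push Not at hcon
      exact hbne (Finsupp.ext hcon)
    have hpq : b.f i • c.f = c.f i • b.f := by
      ext j
      simpa using hcomm i j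
    have hpq' : b.f i • φ c.f = c.f i • ν := by
      rw [← map_zsmul, hpq, map_zsmul, hb]
    exact absurd (hdstar _ _ _ hi hpq') (not_lt.mpr k4)
  · -- degenerate case
    have hr' : a.r = 0 := hr.symm
    have h1' : F (1 : GG χ φ) < F a ∨ F (1 : GG χ φ) = F a ∧ W (1 : GG χ φ) < W a := by
      rw [lt_iff] at h1
      rcases h1 with h | ⟨-, h | ⟨-, h⟩⟩
      · rw [hna] at h
        simp at h
      · rw [hr'] at h
        simp at h
      · exact h
    have h2' : F (a * a) < F a ∨ F (a * a) = F a ∧ W (a * a) < W (b⁻¹ * a * b) := by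
      rw [lt_iff, haaf, hAf, hna, haar, hAr, hr', mul_zero, mul_zero] at h2
      have hFA : F (b⁻¹ * a * b) = F a := by
        unfold F
        rw [hAf]
      rw [hFA] at h2
      rcases h2 with h | ⟨-, h | ⟨-, h⟩⟩
      · exact absurd h (lt_irrefl _)
      · exact absurd h (lt_irrefl _)
      · exact h
    have hF0 : F a = 0 := by
      have e1 : 0 ≤ F a := by
        rcases h1' with h | ⟨h, -⟩
        · exact h.le
        · exact h.le
      have e2 : F a + F a ≤ F a := by
        rcases h2' with h | ⟨h, -⟩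
        · exact h.le
        · exact h.le
      exact le_antisymm (by simpa using e2) e1
    have hf0 : a.f = 0 := DFunLike.coe_injective hF0
    have hWA : W (b⁻¹ * a * b) = W a := by
      unfold W
      rw [conj_w a b hf0]
    have hW1 : 0 < W a := by
      rcases h1' with h | ⟨-, h⟩
      · rw [F_one, hF0] at h
        exact absurd h (lt_irrefl _)
      · exact h
    have hWaa : W (a * a) = W a + W a := by
      funext i
      funext j
      change (a * a).w i j = a.w i j + a.w i j
      rw [mul_w, hf0]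
      simp
    have hW2 : W a + W a < W a := by
      rcases h2' with h | ⟨-, h⟩
      · rw [F_mul, hF0, add_zero] at h
        exact absurd h (lt_irrefl _)
      · rwa [hWaa, hWA] at h
    have : W a < 0 := by simpa using hW2
    exact absurd (hW1.trans this) (lt_irrefl _)

end GG

end Pool.Agent.LQuasi
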