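import Mathlib
import Pool.Agent.LQuasi.Quasi

/-!
The standard groups `GK k`, their ultraproduct, and the two conditions on its character.
-/

set_option autoImplicit false

namespace Pool.Agent.LQuasi

open Filter

/-- The base of the `k`-th character. -/
noncomputable def lam (k : ℕ) : ℝ := 2 + (3 / 2) / 2 ^ (k + 1)

theorem lam_gt (k : ℕ) : 2 < lam k := by
  unfold lam
  have : (0 : ℝ) < (3 / 2) / 2 ^ (k + 1) := by positivity
  linarith

theorem lam_lt (k : ℕ) : lam k < 3 := by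
  unfold lam
  have h2 : (2 : ℝ) ^ 1 ≤ 2 ^ (k + 1) := pow_le_pow_right₀ (by norm_num) (by omega)
  have : ((3 : ℝ) / 2) / 2 ^ (k + 1) < 1 := by
    rw [div_lt_one (by positivity)]
    linarith
  linarith

theorem lam_pos (k : ℕ) : 0 < lam k := by linarith [lam_gt k]

theorem lam_ne (k : ℕ) : lam k ≠ 0 := (lam_pos k).ne'

/-- The `k`-th character. -/
noncomputable def chiK (k : ℕ) : Chr ℤ ℝ where
  fn n := lam k ^ n
  map_zero := zpow_zero _
  map_add a b := zpow_add₀ (lam_ne k) a b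
  pos a := zpow_pos (lam_pos k) a

/-- The `k`-th group. -/
abbrev GK (k : ℕ) : Type := SD (chiK k)

/-- The ultrafilter. -/
noncomputable abbrev UU : Ultrafilter ℕ := Filter.hyperfilter ℕ

/-- Nonstandard integers. -/
abbrev NS : Type := Filter.Germ (UU : Filter ℕ) ℤ

/-- Nonstandard reals. -/
abbrev RS : Type := Filter.Germ (UU : Filter ℕ) ℝ

/-- The nonstandard character. -/
noncomputable def chiS : Chr NS RS where
  fn n := Filter.Germ.map₂ (fun (L : ℝ) (m : ℤ) => L ^ m) ((lam : ℕ → ℝ) : RS) n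
  map_zero := by
    have h : (0 : NS) = ((fun _ : ℕ => (0 : ℤ)) : NS) := rfl
    rw [h, Filter.Germ.map₂_coe]
    have h1 : (1 : RS) = ((fun _ : ℕ => (1 : ℝ)) : RS) := rfl
    rw [h1, Filter.Germ.coe_eq]
    exact Filter.Eventually.of_forall (fun k => zpow_zero _)
  map_add a b := by
    induction a using Filter.Germ.inductionOn with
    | _ a =>
    induction b using Filter.Germ.inductionOn with
    | _ b =>
    rw [← Filter.Germ.coe_add, Filter.Germ.map₂_coe, Filter.Germ.map₂_coe, Filter.Germ.map₂_coe,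
      ← Filter.Germ.coe_mul, Filter.Germ.coe_eq]
    exact Filter.Eventually.of_forall (fun k => zpow_add₀ (lam_ne k) _ _)
  pos a := by
    induction a using Filter.Germ.inductionOn with
    | _ a =>
    rw [Filter.Germ.map₂_coe]
    have h1 : (0 : RS) = ((fun _ : ℕ => (0 : ℝ)) : RS) := rfl
    rw [h1, Filter.Germ.coe_lt]
    exact Filter.Eventually.of_forall (fun k => zpow_pos (lam_pos k) _)

theorem chiS_coe (a : ℕ → ℤ) :
    chiS.fn ((a : ℕ → ℤ) : NS) = ((fun k => lam k ^ a k : ℕ → ℝ) : RS) := rfl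

/-- The nonstandard one. -/
noncomputable def nu : NS := ((fun _ : ℕ => (1 : ℤ)) : NS)

theorem chiS_star (n : NS) (h2 : 2 ≤ chiS.fn n) (h3 : chiS.fn n ≤ 3) : n = nu := by
  induction n using Filter.Germ.inductionOn with
  | _ n =>
  rw [chiS_coe] at h2 h3
  have e2 : (2 : RS) = ((fun _ : ℕ => (2 : ℝ)) : RS) := rfl
  have e3 : (3 : RS) = ((fun _ : ℕ => (3 : ℝ)) : RS) := rfl
  rw [e2, Filter.Germ.coe_le] at h2
  rw [e3, Filter.Germ.coe_le] at h3
  unfold nu
  rw [Filter.Germ.coe_eq]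
  filter_upwards [h2, h3] with k hk2 hk3
  by_contra hne
  rcases lt_or_gt_of_ne hne with h | h
  · have h0 : n k ≤ 0 := by omega
    have : lam k ^ n k ≤ 1 := zpow_le_one_of_nonpos₀ (by linarith [lam_gt k]) h0
    linarith
  · have h0 : 2 ≤ n k := by omega
    have h1 : lam k ^ (2 : ℤ) ≤ lam k ^ n k :=
      zpow_le_zpow_right₀ (by linarith [lam_gt k]) h0
    have h2' : lam k ^ (2 : ℤ) = lam k * lam k := by
      rw [zpow_two]
    have := lam_gt k
    have h4 : (2 : ℝ) * 2 < lam k * lam k :=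
      mul_lt_mul'' this this (by norm_num) (by norm_num)
    rw [h2'] at h1
    linarith

theorem eventually_small (M : ℕ) : ∀ᶠ k in (UU : Filter ℕ), (3 : ℝ) ^ M * (lam k - 2) < 1 := by
  have h1 : Filter.Tendsto (fun k : ℕ => (3 : ℝ) ^ M * ((3 / 2) / 2 ^ (k + 1)))
      Filter.atTop (nhds ((3 : ℝ) ^ M * 0)) := by
    apply Filter.Tendsto.const_mul
    have h2 : Filter.Tendsto (fun k : ℕ => (3 / 2 : ℝ) / 2 ^ k) Filter.atTop (nhds 0) :=
      tendsto_const_nhds.div_atTop (tendsto_pow_atTop_atTop_of_one_lt (by norm_num))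
    exact (Filter.tendsto_add_atTop_iff_nat 1).mpr h2
  rw [mul_zero] at h1
  have h3 : ∀ᶠ k in Filter.atTop, (3 : ℝ) ^ M * ((3 / 2) / 2 ^ (k + 1)) < 1 :=
    h1.eventually (gt_mem_nhds one_pos)
  have h4 : (UU : Filter ℕ) ≤ Filter.atTop := by
    rw [← Nat.cofinite_eq_atTop]
    exact Filter.hyperfilter_le_cofinite
  have h5 := h4 h3
  filter_upwards [h5] with k hk
  have : lam k - 2 = (3 / 2) / 2 ^ (k + 1) := by unfold lam; ring
  rw [this]
  exact hk

theorem zsmul_coe (p : ℤ) (n : ℕ → ℤ) :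
    p • ((n : ℕ → ℤ) : NS) = ((fun k => p * n k : ℕ → ℤ) : NS) := by
  have h : p • ((n : ℕ → ℤ) : NS) = ((p • n : ℕ → ℤ) : NS) := rfl
  rw [h]
  congr 1

theorem chiS_dstar (n : NS) (p q : ℤ) (hp : p ≠ 0) (hpq : p • n = q • nu) :
    chiS.fn n * (chiS.fn nu - 2) < 1 := by
  induction n using Filter.Germ.inductionOn with
  | _ n =>
  unfold nu at hpq ⊢
  rw [zsmul_coe, zsmul_coe, Filter.Germ.coe_eq] at hpq
  rw [chiS_coe, chiS_coe]
  have e2 : (2 : RS) = ((fun _ : ℕ => (2 : ℝ)) : RS) := rfl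
  have e1 : (1 : RS) = ((fun _ : ℕ => (1 : ℝ)) : RS) := rfl
  rw [e2, e1, ← Filter.Germ.coe_sub, ← Filter.Germ.coe_mul, Filter.Germ.coe_lt]
  filter_upwards [hpq, eventually_small q.natAbs] with k hk hs
  simp only [Pi.mul_apply, Pi.sub_apply, zpow_one]
  have hnle : n k ≤ (q.natAbs : ℤ) := by
    have h1 : (n k).natAbs ≤ q.natAbs := by
      have h2 : p.natAbs * (n k).natAbs = q.natAbs := by
        rw [← Int.natAbs_mul]
        rw [mul_one] at hk
        rw [hk]
      have h3 : 0 < p.natAbs := Int.natAbs_pos.mpr hp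
      rw [← h2]
      exact Nat.le_mul_of_pos_left _ h3
    have h4 : n k ≤ ((n k).natAbs : ℤ) := Int.le_natAbs
    exact h4.trans (by exact_mod_cast h1)
  have h5 : lam k ^ n k ≤ 3 ^ q.natAbs := by
    calc lam k ^ n k ≤ lam k ^ (q.natAbs : ℤ) :=
          zpow_le_zpow_right₀ (by linarith [lam_gt k]) hnle
      _ = lam k ^ q.natAbs := zpow_natCast _ _
      _ ≤ 3 ^ q.natAbs := pow_le_pow_left₀ (lam_pos k).le (lam_lt k).le _
  have h6 : 0 ≤ lam k - 2 := by linarith [lam_gt k]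
  calc lam k ^ n k * (lam k - 2) ≤ 3 ^ q.natAbs * (lam k - 2) :=
        mul_le_mul_of_nonneg_right h5 h6
    _ < 1 := hs

/-- The canonical map from the product to the ultraproduct. -/
noncomputable def gmap (y : ∀ k, GK k) : SD chiS :=
  ⟨((fun k => (y k).n : ℕ → ℤ) : NS), ((fun k => (y k).r : ℕ → ℝ) : RS)⟩

theorem gmap_one : gmap 1 = 1 := rfl

theorem gmap_mul (x y : ∀ k, GK k) : gmap (x * y) = gmap x * gmap y := rfl

theorem gmap_inv (x : ∀ k, GK k) : gmap x⁻¹ = (gmap x)⁻¹ := by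
  rw [eq_inv_iff_mul_eq_one, ← gmap_mul, inv_mul_cancel, gmap_one]

theorem gmap_congr {x y : ∀ k, GK k} (h : ∀ᶠ k in (UU : Filter ℕ), x k = y k) :
    gmap x = gmap y := by
  unfold gmap
  ext
  · refine Filter.Germ.coe_eq.mpr ?_
    filter_upwards [h] with k hk
    rw [hk]
  · refine Filter.Germ.coe_eq.mpr ?_
    filter_upwards [h] with k hk
    rw [hk]

theorem gmap_eq_iff {x y : ∀ k, GK k} :
    gmap x = gmap y ↔ ∀ᶠ k in (UU : Filter ℕ), x k = y k := by
  refine ⟨fun h => ?_, gmap_congr⟩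
  have h1 : ((fun k => (x k).n : ℕ → ℤ) : NS) = ((fun k => (y k).n : ℕ → ℤ) : NS) :=
    congrArg SD.n h
  have h2 : ((fun k => (x k).r : ℕ → ℝ) : RS) = ((fun k => (y k).r : ℕ → ℝ) : RS) :=
    congrArg SD.r h
  rw [Filter.Germ.coe_eq] at h1 h2
  filter_upwards [h1, h2] with k hk1 hk2
  exact SD.ext hk1 hk2

theorem gmap_le {x y : ∀ k, GK k} (h : ∀ᶠ k in (UU : Filter ℕ), x k ≤ y k) :
    gmap x ≤ gmap y := by
  rw [SD.le_iff]
  have h' : ∀ᶠ k in (UU : Filter ℕ), (x k).n < (y k).n ∨ (x k).n = (y k).n ∧ (x k).r ≤ (y k).r := by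
    filter_upwards [h] with k hk
    exact (SD.le_iff _ _).mp hk
  rw [Ultrafilter.eventually_or] at h'
  rcases h' with h' | h'
  · left
    exact Filter.Germ.coe_lt.mpr h'
  · right
    refine ⟨Filter.Germ.coe_eq.mpr ?_, Filter.Germ.coe_le.mpr ?_⟩
    · filter_upwards [h'] with k hk using hk.1
    · filter_upwards [h'] with k hk using hk.2

theorem gmap_sup (x y : ∀ k, GK k) : gmap (x ⊔ y) = gmap x ⊔ gmap y := by
  have h : ∀ᶠ k in (UU : Filter ℕ), x k ≤ y k ∨ y k ≤ x k :=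
    Filter.Eventually.of_forall (fun k => le_total _ _)
  rw [Ultrafilter.eventually_or] at h
  rcases h with h | h
  · rw [sup_eq_right.mpr (gmap_le h)]
    apply gmap_congr
    filter_upwards [h] with k hk
    exact sup_eq_right.mpr hk
  · rw [sup_eq_left.mpr (gmap_le h)]
    apply gmap_congr
    filter_upwards [h] with k hk
    exact sup_eq_left.mpr hk

theorem gmap_inf (x y : ∀ k, GK k) : gmap (x ⊓ y) = gmap x ⊓ gmap y := by
  have h : ∀ᶠ k in (UU : Filter ℕ), x k ≤ y k ∨ y k ≤ x k :=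
    Filter.Eventually.of_forall (fun k => le_total _ _)
  rw [Ultrafilter.eventually_or] at h
  rcases h with h | h
  · rw [inf_eq_left.mpr (gmap_le h)]
    apply gmap_congr
    filter_upwards [h] with k hk
    exact inf_eq_left.mpr hk
  · rw [inf_eq_right.mpr (gmap_le h)]
    apply gmap_congr
    filter_upwards [h] with k hk
    exact inf_eq_right.mpr hk

/-- The element `a` of `GK k` witnessing failure. -/
def aK (k : ℕ) : GK k := ⟨0, 1⟩

/-- The element `b` of `GK k` witnessing failure. -/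
def bK (k : ℕ) : GK k := ⟨1, 0⟩

theorem bK_pow (k m : ℕ) : (bK k) ^ m = ⟨(m : ℤ), 0⟩ := by
  induction m with
  | zero => rw [pow_zero]; rfl
  | succ m ih =>
    rw [pow_succ, ih]
    ext
    · simp [bK]
    · simp [bK]

theorem conj_aux (k : ℕ) (x y : GK k) (hx : x.n = 0) (hy : y.r = 0) :
    y⁻¹ * x * y = ⟨0, lam k ^ y.n * x.r⟩ := by
  ext
  · simp [hx]
  · simp only [SD.mul_r, SD.inv_r, hy, hx, mul_zero, neg_zero, zero_add, add_zero]
    rfl

theorem fail (k : ℕ) : RR (aK k) (bK k) ((bK k) ^ (k + 1)) ≠ 1 := by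
  rw [Ne, RR_eq_one_iff, not_not]
  have hA : (bK k)⁻¹ * aK k * bK k = ⟨0, lam k⟩ := by
    rw [conj_aux k (aK k) (bK k) rfl rfl]
    ext
    · rfl
    · simp [aK, bK]
  have hP : ((bK k) ^ (k + 1))⁻¹ * aK k * ((bK k) ^ (k + 1)) = ⟨0, lam k ^ (k + 1)⟩ := by
    rw [bK_pow, conj_aux k (aK k) _ rfl rfl]
    ext
    · rfl
    · simp only [aK, mul_one]
      exact zpow_natCast _ _
  have hQ : (bK k)⁻¹ * (⟨0, lam k ^ (k + 1)⟩ : GK k) * bK k = ⟨0, lam k ^ (k + 2)⟩ := by
    rw [conj_aux k _ (bK k) rfl rfl]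
    ext
    · rfl
    · simp only [bK, zpow_one]
      ring
  rw [hA, hP, hQ]
  have h0 : (chiK k).fn 0 = 1 := (chiK k).map_zero
  have g1 := lam_gt k
  have g2 := lam_lt k
  refine ⟨?_, ?_, ?_, ?_⟩
  · rw [SD.lt_iff]
    right
    simp [aK]
  · rw [SD.lt_iff]
    right
    refine ⟨by simp [aK], ?_⟩
    simp only [SD.mul_r, aK, h0]
    linarith
  · rw [SD.lt_iff]
    right
    refine ⟨by simp [aK], ?_⟩
    simp only [SD.mul_r, aK, h0]
    linarith
  · rw [SD.lt_iff]
    right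
    refine ⟨by simp [aK], ?_⟩
    simp only [SD.mul_r, SD.mul_n, aK, h0, add_zero]
    have k1 : (2 : ℝ) ^ (k + 1) ≤ lam k ^ (k + 1) := pow_le_pow_left₀ (by norm_num) g1.le _
    have k2 : lam k - 2 = (3 / 2) / 2 ^ (k + 1) := by unfold lam; ring
    have k3 : (3 : ℝ) / 2 ≤ lam k ^ (k + 1) * (lam k - 2) := by
      calc (3 : ℝ) / 2 = 2 ^ (k + 1) * ((3 / 2) / 2 ^ (k + 1)) := by field_simp
        _ = 2 ^ (k + 1) * (lam k - 2) := by rw [k2]
        _ ≤ lam k ^ (k + 1) * (lam k - 2) :=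
            mul_le_mul_of_nonneg_right k1 (by linarith)
    have k4 : lam k ^ (k + 2) = lam k ^ (k + 1) * lam k := pow_succ _ _
    rw [k4]
    linarith

end Pool.Agent.LQuasi
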