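import Mathlib
import Pool.Agent.LQuasi.Germs

/-!
The theory of the quasi-variety: the identities `ident k`, and the main argument.
-/

set_option autoImplicit false

namespace Pool.Agent.LQuasi

open Filter

/-- The single quasi-identity `bc = cb → R(a,b,c) = 1`. -/
def QI : List (List (List (ℕ ⊕ Fin 5) × List (ℕ ⊕ Fin 5)) ×
    (List (ℕ ⊕ Fin 5) × List (ℕ ⊕ Fin 5))) :=
  [([((T.mul (T.var 1) (T.var 2)).comp, (T.mul (T.var 2) (T.var 1)).comp)],
    ((T.R (T.var 0) (T.var 1) (T.var 2)).comp, T.one.comp))]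

/-- The `k`-th identity `R(a,b,b^(k+1)) = 1`. -/
def ident (k : ℕ) : List (ℕ ⊕ Fin 5) × List (ℕ ⊕ Fin 5) :=
  ((T.R (T.var 0) (T.var 1) ((T.var 1).pow (k + 1))).comp, T.one.comp)

/-- `G` satisfies the quasi-identity. -/
def SatQ (G : Type) [Group G] [Lattice G] : Prop :=
  ∀ q ∈ QI, ∀ w : ℕ → G, (∀ p ∈ q.1, val w p.1 = val w p.2) → val w q.2.1 = val w q.2.2

theorem satQ_iff (G : Type) [Group G] [Lattice G] :
    SatQ G ↔ ∀ a b c : G, b * c = c * b → RR a b c = 1 := by
  constructor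
  · intro h a b c hbc
    have := h _ (List.mem_singleton.mpr rfl)
      (fun i => match i with | 0 => a | 1 => b | _ => c) ?_
    · simp only [val_comp, T.eval_R] at this
      exact this
    · intro p hp
      rw [List.mem_singleton] at hp
      subst hp
      simp only [val_comp]
      exact hbc
  · intro h q hq w hp
    unfold QI at hq
    rw [List.mem_singleton] at hq
    subst hq
    have h1 := hp _ (List.mem_singleton.mpr rfl)
    simp only [val_comp, T.eval_R] at h1 ⊢
    exact h _ _ _ h1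

theorem ident_of_satQ (G : Type) [Group G] [Lattice G] (h : SatQ G) (k : ℕ) (w : ℕ → G) :
    val w (ident k).1 = val w (ident k).2 := by
  rw [satQ_iff] at h
  unfold ident
  simp only [val_comp, T.eval_R, T.eval_pow]
  exact h _ _ _ (by simp only [T.eval]; exact (pow_succ' _ _).symm.trans (pow_succ _ _))

theorem not_ident (k : ℕ) : ¬ ∀ w : ℕ → GK k, val w (ident k).1 = val w (ident k).2 := by
  intro h
  have h1 := h (fun i => match i with | 0 => aK k | _ => bK k)
  unfold ident at h1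
  simp only [val_comp, T.eval_R, T.eval_pow] at h1
  exact fail k h1

theorem satQ_GG (φ : (ℕ →₀ ℤ) →+ NS) : SatQ (GG chiS φ) := by
  rw [satQ_iff]
  intro a b c hbc
  exact GG.quasi nu chiS_star chiS_dstar a b c hbc

/-- If an identity fails in `GK k` for `UU`-many `k`, it fails in some `GG chiS φ`. -/
theorem transfer (e : List (ℕ ⊕ Fin 5) × List (ℕ ⊕ Fin 5))
    (h : ∀ᶠ k in (UU : Filter ℕ), ∃ w : ℕ → GK k, val w e.1 ≠ val w e.2) :
    ∃ φ : (ℕ →₀ ℤ) →+ NS, ∃ w : ℕ → GG chiS φ, val w e.1 ≠ val w e.2 := by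
  classical
  have hch : ∀ k, ∃ w : ℕ → GK k, (∃ w' : ℕ → GK k, val w' e.1 ≠ val w' e.2) →
      val w e.1 ≠ val w e.2 := by
    intro k
    by_cases hk : ∃ w' : ℕ → GK k, val w' e.1 ≠ val w' e.2
    · obtain ⟨w, hw⟩ := hk
      exact ⟨w, fun _ => hw⟩
    · exact ⟨fun _ => 1, fun h' => absurd h' hk⟩
  choose x hx using hch
  -- the assignment in the product
  let X : ℕ → (∀ k, GK k) := fun i k => x k i
  have hX : ∀ (t : List (ℕ ⊕ Fin 5)) (k : ℕ), val X t k = val (x k) t := by
    intro t k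
    have := val_map (G := ∀ k, GK k) (H := GK k) (fun y => y k) rfl (fun _ => rfl)
      (fun _ _ => rfl) (fun _ _ => rfl) (fun _ _ => rfl) X t
    exact this.symm
  have hS : val (fun i => gmap (X i)) e.1 ≠ val (fun i => gmap (X i)) e.2 := by
    rw [val_map gmap gmap_one gmap_inv gmap_mul gmap_sup gmap_inf,
      val_map gmap gmap_one gmap_inv gmap_mul gmap_sup gmap_inf]
    intro heq
    rw [gmap_eq_iff] at heq
    have hfalse : ∀ᶠ k in (UU : Filter ℕ), False := by
      filter_upwards [heq, h] with k hk1 hk2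
      rw [hX, hX] at hk1
      exact hx k hk2 hk1
    obtain ⟨k, hk⟩ := hfalse.exists
    exact hk
  let φ : (ℕ →₀ ℤ) →+ NS :=
    Finsupp.liftAddHom (fun i => (zmultiplesHom NS) (gmap (X i)).n)
  have hφ : ∀ i, φ (Finsupp.single i 1) = (gmap (X i)).n := by
    intro i
    simp [φ]
  refine ⟨φ, fun i => ⟨(gmap (X i)).r, Finsupp.single i 1, fun _ _ => 0⟩, ?_⟩
  intro heq
  apply hS
  have hproj : (fun i => gmap (X i)) = fun i => GG.proj
      (⟨(gmap (X i)).r, Finsupp.single i 1, fun _ _ => 0⟩ : GG chiS φ) := by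
    funext i
    unfold GG.proj
    ext
    · exact (hφ i).symm
    · rfl
  rw [hproj, val_map GG.proj GG.proj_one GG.proj_inv GG.proj_mul GG.proj_sup GG.proj_inf,
    val_map GG.proj GG.proj_one GG.proj_inv GG.proj_mul GG.proj_sup GG.proj_inf, heq]

/-- The main theorem in terms of `val`. -/
theorem main :
    ¬ ∃ E : List (List (ℕ ⊕ Fin 5) × List (ℕ ⊕ Fin 5)),
        ∀ (G : Type) [Group G] [Lattice G] [MulLeftMono G] [MulRightMono G],
          ((∀ e ∈ E, ∀ v : ℕ → G, val v e.1 = val v e.2) ↔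
          (∀ e : List (ℕ ⊕ Fin 5) × List (ℕ ⊕ Fin 5),
            (∀ (H : Type) [Group H] [Lattice H] [MulLeftMono H] [MulRightMono H],
              SatQ H → ∀ w : ℕ → H, val w e.1 = val w e.2) →
            ∀ v : ℕ → G, val v e.1 = val v e.2)) := by
  rintro ⟨E, hE⟩
  -- every `GK k` violates some member of `E`
  have h1 : ∀ k : ℕ, ∃ e ∈ {e | e ∈ E}, ∃ w : ℕ → GK k, val w e.1 ≠ val w e.2 := by
    intro k
    by_contra hcon
    push Not at hcon
    have h2 := (hE (GK k)).mp (fun e he v => hcon e he v)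
    exact not_ident k (h2 (ident k) (fun H _ _ _ _ hH w => ident_of_satQ H hH k w))
  have hfin : ({e | e ∈ E} : Set (List (ℕ ⊕ Fin 5) × List (ℕ ⊕ Fin 5))).Finite :=
    List.finite_toSet E
  have h2 : ∃ e ∈ {e | e ∈ E}, ∀ᶠ k in (UU : Filter ℕ),
      ∃ w : ℕ → GK k, val w e.1 ≠ val w e.2 :=
    (Ultrafilter.eventually_exists_mem_iff hfin).mp (Filter.Eventually.of_forall h1)
  obtain ⟨e, he, hev⟩ := h2
  obtain ⟨φ, w, hw⟩ := transfer e hev
  have h3 := (hE (GG chiS φ)).mpr (fun e' he' v => he' (GG chiS φ) (satQ_GG φ) v)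
  exact hw (h3 e he w)

end Pool.Agent.LQuasi
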